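import Pool.Agent.Run7.h619.PR.Iface

set_option autoImplicit false

namespace Run7.h803.PR

open Pool.Agent.H718R2.G Run7.h619.PR

/-- short steps -/
theorem comb_short {L : ℝ} {I : ℕ} {s : ℕ → ℝ} (h : ∀ i < I, |s (i + 1) - s i| ≤ L) (i : ℕ) :
    ∀ n : ℕ, i + n ≤ I → -(n * L) ≤ s (i + n) - s i := by
  intro n
  induction n with
  | zero => intro _; simp
  | succ n ih =>
    intro hn
    have h1 := ih (by omega)
    have h2 := (abs_le.1 (h (i + n) (by omega))).1
    have e : i + (n + 1) = i + n + 1 := by ring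
    rw [e]
    push_cast
    linarith

theorem comb_low {Q n₀ : ℕ} {L ε : ℝ} (hL : 0 ≤ L) (hε : 0 < ε) {I : ℕ}
    {s : ℕ → ℝ} {c : ℕ → Fin Q} (h : ∀ i < I, |s (i + 1) - s i| ≤ L)
    (hc : ∀ i i', i + n₀ ≤ i' → i' ≤ I → c i = c i' → ε ≤ s i' - s i) :
    ∀ (n : ℕ) (A : Finset (Fin Q)) (i i' : ℕ), A.card = n → i ≤ i' → i' ≤ I →
      (∀ t, i ≤ t → t ≤ i' → c t ∈ A) → -(n * ((n₀ + 1) * L)) ≤ s i' - s i := by
  intro n
  induction n with
  | zero =>
    intro A i i' hA hii _ hmem
    rw [Finset.card_eq_zero] at hA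
    subst hA
    exact absurd (hmem i le_rfl hii) (Finset.notMem_empty _)
  | succ n ih =>
    intro A i i' hA hii hI hmem
    classical
    set T := (Finset.Icc i i').filter (fun t => c t = c i) with hT
    have hne : T.Nonempty := ⟨i, by simp [hT, hii]⟩
    set b := T.max' hne with hb
    have hbT : b ∈ T := T.max'_mem hne
    have hbm : i ≤ b ∧ b ≤ i' ∧ c b = c i := by
      have := hbT
      rw [hT, Finset.mem_filter, Finset.mem_Icc] at this
      exact ⟨this.1.1, this.1.2, this.2⟩
    obtain ⟨h1, h2, h3⟩ := hbm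
    have hsb : -(n₀ * L) ≤ s b - s i := by
      by_cases hlt : i + n₀ ≤ b
      · have := hc i b hlt (h2.trans hI) h3.symm
        have h4 : 0 ≤ (n₀ : ℝ) * L := by positivity
        linarith
      · push Not at hlt
        have h5 := comb_short h i (b - i) (by omega)
        have e : i + (b - i) = b := by omega
        rw [e] at h5
        have h6 : ((b - i : ℕ) : ℝ) ≤ n₀ := by exact_mod_cast (by omega : b - i ≤ n₀)
        have h7 : ((b - i : ℕ) : ℝ) * L ≤ n₀ * L := mul_le_mul_of_nonneg_right h6 hL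
        linarith
    have hK : 0 ≤ (n : ℝ) * ((n₀ + 1) * L) := by positivity
    rcases eq_or_lt_of_le h2 with h8 | h8
    · rw [h8] at hsb
      push_cast
      nlinarith
    · have h9 := ih (A.erase (c i)) (b + 1) i' (by
        rw [Finset.card_erase_of_mem (hmem i le_rfl hii), hA]
        rfl) (by omega) hI (fun t ht1 ht2 => by
        rw [Finset.mem_erase]
        refine ⟨fun heq => ?_, hmem t (by omega) ht2⟩
        have : t ≤ b := by
          refine T.le_max' t ?_
          rw [hT, Finset.mem_filter, Finset.mem_Icc]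
          exact ⟨⟨by omega, ht2⟩, heq⟩
        omega)
      have h10 := (abs_le.1 (h b (by omega))).1
      push_cast
      nlinarith

theorem comb_chain {Q n₀ : ℕ} {ε : ℝ} {I : ℕ} {s : ℕ → ℝ} {c : ℕ → Fin Q}
    (hc : ∀ i i', i + n₀ ≤ i' → i' ≤ I → c i = c i' → ε ≤ s i' - s i) (i : ℕ) (y : Fin Q) :
    ∀ (m : ℕ) (F : Finset ℕ), F.card = m + 1 → (∀ j ∈ F, i + j * n₀ ≤ I ∧ c (i + j * n₀) = y) →
      ∃ a ∈ F, ∃ b ∈ F, (∀ x ∈ F, x ≤ b) ∧ m * ε ≤ s (i + b * n₀) - s (i + a * n₀) := by
  intro m
  induction m with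
  | zero =>
    intro F hF _
    obtain ⟨a, rfl⟩ := Finset.card_eq_one.1 hF
    exact ⟨a, by simp, a, by simp, by simp, by simp⟩
  | succ m ih =>
    intro F hF hy
    have hne : F.Nonempty := by
      rw [← Finset.card_pos]
      omega
    set b := F.max' hne with hb
    have hbF : b ∈ F := F.max'_mem hne
    obtain ⟨a, ha, b', hb', hmax, hle⟩ := ih (F.erase b) (by
      rw [Finset.card_erase_of_mem hbF, hF]
      rfl) (fun j hj => hy j (Finset.mem_of_mem_erase hj))
    have hb'F := Finset.mem_of_mem_erase hb'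
    have hne' := Finset.ne_of_mem_erase hb'
    have hlt : b' < b := lt_of_le_of_ne (F.le_max' b' hb'F) hne'
    refine ⟨a, Finset.mem_of_mem_erase ha, b, hbF, fun x hx => F.le_max' x hx, ?_⟩
    have h1 := hc (i + b' * n₀) (i + b * n₀) (by nlinarith [Nat.mul_le_mul_right n₀ hlt])
      (hy b hbF).1 (by rw [(hy b hbF).2, (hy b' hb'F).2])
    push_cast
    linarith

theorem t_COMB : S_COMB := by
  intro Q n₀ L ε hn₀ hL hε
  set C₀ : ℝ := Q * ((n₀ + 1) * L) with hC₀
  have hC₀n : 0 ≤ C₀ := by positivity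
  obtain ⟨m, hm⟩ := exists_nat_gt ((2 * C₀ + ε) / ε)
  rw [div_lt_iff₀ hε] at hm
  set M : ℕ := (Q * m + 1) * n₀ with hM
  have hMpos : 0 < M := by positivity
  have hMR : (0 : ℝ) < M := by exact_mod_cast hMpos
  refine ⟨ε / M, ε + C₀, by positivity, by positivity, ?_⟩
  intro I s c h hc
  have low : ∀ i i', i ≤ i' → i' ≤ I → -C₀ ≤ s i' - s i := by
    intro i i' hi hi'
    have := comb_low hL hε h hc Q Finset.univ i i' (by simp) hi hi' (fun _ _ _ => Finset.mem_univ _)
    exact this
  have block : ∀ i, i + M ≤ I → ε ≤ s (i + M) - s i := by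
    intro i hi
    obtain ⟨y, _, hy⟩ := Finset.exists_lt_card_fiber_of_mul_lt_card_of_maps_to
      (s := Finset.range (Q * m + 1)) (t := (Finset.univ : Finset (Fin Q)))
      (f := fun j => c (i + j * n₀)) (n := m) (fun _ _ => Finset.mem_univ _) (by simp)
    obtain ⟨F, hF, hFc⟩ := Finset.exists_subset_card_eq (Nat.succ_le_of_lt hy)
    have hFp : ∀ j ∈ F, j < Q * m + 1 ∧ c (i + j * n₀) = y := by
      intro j hj
      have := hF hj
      rw [Finset.mem_filter, Finset.mem_range] at this
      exact this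
    have hle : ∀ j ∈ F, j * n₀ ≤ M := by
      intro j hj
      rw [hM]
      exact Nat.mul_le_mul_right _ (hFp j hj).1.le
    obtain ⟨a, ha, b, hb, hmax, hab⟩ := comb_chain hc i y m F hFc (fun j hj => by
      refine ⟨?_, (hFp j hj).2⟩
      have := hle j hj
      omega)
    have h1 := low i (i + a * n₀) (by omega) (by have := hle a ha; omega)
    have h2 := low (i + b * n₀) (i + M) (by have := hle b hb; omega) hi
    nlinarith
  have iter : ∀ (j i : ℕ), i + j * M ≤ I → j * ε ≤ s (i + j * M) - s i := by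
    intro j
    induction j with
    | zero => intro i _; simp
    | succ j ih =>
      intro i hi
      have e : i + (j + 1) * M = i + j * M + M := by ring
      rw [e] at hi ⊢
      have h1 := ih i (by omega)
      have h2 := block (i + j * M) hi
      push_cast
      linarith
  intro i i' hi hi'
  have hd := Nat.div_add_mod (i' - i) M
  have hmod := Nat.mod_lt (i' - i) hMpos
  set j := (i' - i) / M with hj
  have e1 : M * j = j * M := mul_comm _ _
  have h1 := iter j i (by omega)
  have h2 := low (i + j * M) i' (by omega) hi'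
  have h3 : ((i' : ℝ) - i) ≤ (j + 1) * M := by
    have : i' - i ≤ (j + 1) * M := by
      rw [add_mul, one_mul]
      omega
    have h4 : ((i' - i : ℕ) : ℝ) ≤ (j + 1) * M := by exact_mod_cast this
    rwa [Nat.cast_sub hi] at h4
  have h5 : ε / M * ((i' : ℝ) - i) ≤ (j + 1) * ε := by
    rw [div_mul_eq_mul_div, div_le_iff₀ hMR]
    nlinarith
  linarith

end Run7.h803.PR
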