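import Pool.Agent.Run7.h619.PR.Iface

set_option autoImplicit false

namespace Run7.h803.PR

open Pool.Agent.H718R2.G Run7.h619.PR

theorem sign_aux (ε σ β : ℝ) (hε : 0 < ε)
    (h : ∀ m₀ m₁ : ℕ, 1 ≤ m₀ → ε * ((m₀ : ℝ) + m₁) < |m₀ * σ + m₁ * β|) (hσ : 0 < σ) : ε ≤ β := by
  have hb : ε ≤ |β| := by
    by_contra hlt
    push Not at hlt
    obtain ⟨m, hm⟩ := exists_nat_gt ((|σ| - ε) / (ε - |β|))
    rw [div_lt_iff₀ (by linarith)] at hm
    have h1 := h 1 m le_rfl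
    have h2 : |((1 : ℕ) : ℝ) * σ + m * β| ≤ |σ| + m * |β| := by
      refine (abs_add_le _ _).trans ?_
      rw [abs_mul, abs_mul, Nat.abs_cast, Nat.abs_cast, Nat.cast_one, one_mul]
    push_cast at h1 h2
    nlinarith
  rcases le_or_gt 0 β with h0 | h0
  · rwa [abs_of_nonneg h0] at hb
  · exfalso
    rw [abs_of_neg h0] at hb
    have hb' : 0 < -β := by linarith
    obtain ⟨m₀, hm₀⟩ := exists_nat_gt ((-β) / ε)
    rw [div_lt_iff₀ hε] at hm₀
    have hm1 : 1 ≤ m₀ := by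
      rcases Nat.eq_zero_or_pos m₀ with h1 | h1
      · rw [h1] at hm₀
        push_cast at hm₀
        linarith
      · exact h1
    set m₁ := ⌊(m₀ : ℝ) * σ / (-β)⌋₊ with hm₁
    have hnn : 0 ≤ (m₀ : ℝ) * σ / (-β) := by positivity
    have e1 := Nat.floor_le hnn
    have e2 := Nat.lt_floor_add_one ((m₀ : ℝ) * σ / (-β))
    rw [← hm₁] at e1 e2
    rw [le_div_iff₀ hb'] at e1
    rw [div_lt_iff₀ hb'] at e2
    have h3 := h m₀ m₁ hm1
    have h4 : |(m₀ : ℝ) * σ + m₁ * β| ≤ m₀ * ε := by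
      rw [abs_le]
      constructor <;> nlinarith
    have h5 : (0 : ℝ) ≤ m₁ := Nat.cast_nonneg _
    nlinarith

theorem t_SIGN : S_SIGN := by
  intro ε σ β hε h
  refine ⟨?_, sign_aux ε σ β hε h, ?_⟩
  · rintro rfl
    have := h 1 0 le_rfl
    norm_num at this
    linarith
  · intro hσ
    have := sign_aux ε (-σ) (-β) hε (fun m₀ m₁ hm => by
      have h1 := h m₀ m₁ hm
      have h2 : (m₀ : ℝ) * -σ + m₁ * -β = -(m₀ * σ + m₁ * β) := by ring
      rw [h2, abs_neg]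
      exact h1) (by linarith)
    linarith

end Run7.h803.PR
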