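import Pool.Agent.Run7.h619.PR.Iface

set_option autoImplicit false

namespace Run7.h803.PR

open Pool.Agent.H718R2.G Run7.h619.PR

theorem apply_eq {k : ℕ} (R : V k →L[ℝ] V k) (v : V k) (i : Fin k) :
    R v i = ∑ j, R (EuclideanSpace.single j 1) i * v j := by
  have h : v = ∑ j, v j • (EuclideanSpace.single j (1 : ℝ) : V k) := by
    ext l
    simp [Finset.sum_apply, Pi.single_apply]
  conv_lhs => rw [h]
  rw [map_sum]
  simp only [map_smul]
  rw [WithLp.ofLp_sum, Finset.sum_apply]
  refine Finset.sum_congr rfl fun j _ => ?_
  simp [mul_comm]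

theorem t_TRU : S_TRU := by
  intro k
  refine ⟨?_, ?_⟩
  · intro R R' h h'
    refine ⟨?_, ?_⟩
    · intro i j hij
      rw [ContinuousLinearMap.comp_apply, apply_eq]
      refine Finset.sum_eq_zero fun l _ => ?_
      rcases lt_or_ge l i with hl | hl
      · rw [h' i l hl, zero_mul]
      · rw [h l j (hij.trans_le hl), mul_zero]
    · intro i
      unfold dg
      rw [ContinuousLinearMap.comp_apply, apply_eq]
      rw [Finset.sum_eq_single i]
      · intro l _ hl
        rcases lt_or_gt_of_ne hl with hl | hl
        · rw [h' i l hl, zero_mul]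
        · rw [h l i hl, mul_zero]
      · intro hi
        exact absurd (Finset.mem_univ i) hi
  · intro R i h hi
    let M : Matrix (Fin k) (Fin k) ℝ :=
      (Matrix.of fun a b => R (EuclideanSpace.single b 1) a) - 1
    have hdet : M.det = 0 := by
      have hbt : M.BlockTriangular id := by
        intro a b hab
        simp only [id] at hab
        change R (EuclideanSpace.single b 1) a - (1 : Matrix (Fin k) (Fin k) ℝ) a b = 0
        rw [h a b hab, Matrix.one_apply_ne hab.ne', sub_zero]
      rw [Matrix.det_of_isUpperTriangular hbt]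
      refine Finset.prod_eq_zero (Finset.mem_univ i) ?_
      change R (EuclideanSpace.single i 1) i - (1 : Matrix (Fin k) (Fin k) ℝ) i i = 0
      rw [Matrix.one_apply_eq]
      have : R (EuclideanSpace.single i 1) i = 1 := hi
      rw [this, sub_self]
    obtain ⟨v, hv, hMv⟩ := Matrix.exists_mulVec_eq_zero_iff.2 hdet
    refine ⟨WithLp.toLp 2 v, ?_, ?_⟩
    · intro h0
      apply hv
      have := congrArg WithLp.ofLp h0
      simpa using this
    · ext a
      rw [apply_eq]
      have h1 := congrFun hMv a
      rw [Matrix.sub_mulVec, Matrix.one_mulVec, Pi.sub_apply, Pi.zero_apply, sub_eq_zero] at h1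
      exact h1

end Run7.h803.PR
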